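import Pool.Agent.W360.MQ.Stm

/-!
# Supporting functions of the class `α(s) + β(s) s v + k(v)`

`s` is the operator norm of a real `2 × 2` matrix, `v` its determinant divided by `s`.
-/

set_option autoImplicit false

namespace Pool.Agent.TH937.TF

open Set Filter Topology
open Pool.Agent.W360.MQ (RC)

/-- convexity along the lines `t ↦ diag(t, τ)` -/
def H3 (α β k : ℝ → ℝ) : Prop := ∀ τ : ℝ, ConvexOn ℝ univ
  (fun t : ℝ => α (max |t| |τ|) + β (max |t| |τ|) * (t * τ) + k (t * τ / max |t| |τ|))

/-! ### one variable lemmas -/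

theorem monotoneOn_of_convex {φ : ℝ → ℝ} {c : ℝ} (h : ConvexOn ℝ (Ici c) φ) (h0 : φ c = 0)
    (hn : ∀ u, c ≤ u → 0 ≤ φ u) : MonotoneOn φ (Ici c) := by
  intro x hx y hy hxy
  have hx' : c ≤ x := hx
  have hy' : c ≤ y := hy
  rcases eq_or_lt_of_le hx' with rfl | hcx
  · rw [h0]; exact hn y hy'
  have hcy : 0 < y - c := by linarith
  have := h.2 (mem_Ici.2 le_rfl : c ∈ Ici c) hy (div_nonneg (by linarith : 0 ≤ y - x) hcy.le)
    (div_nonneg (by linarith : 0 ≤ x - c) hcy.le) (by rw [← add_div]; rw [div_eq_one_iff_eq hcy.ne']; ring)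
  have e : ((y - x) / (y - c)) • c + ((x - c) / (y - c)) • y = x := by
    simp only [smul_eq_mul]; field_simp; ring
  rw [e, h0] at this
  simp only [smul_eq_mul, mul_zero, zero_add] at this
  have h1 : (x - c) / (y - c) ≤ 1 := by rw [div_le_one hcy]; linarith
  have h2 := hn y hy'
  nlinarith

/-- extension by zero of a nonnegative convex function which vanishes at the end point -/
theorem convex_ext {φ : ℝ → ℝ} {c : ℝ} (h : ConvexOn ℝ (Ici c) φ) (h0 : φ c = 0)
    (hn : ∀ u, c ≤ u → 0 ≤ φ u) : ConvexOn ℝ univ (fun t => φ (max t c)) := by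
  have hm := monotoneOn_of_convex h h0 hn
  have himg : (fun t : ℝ => max t c) '' univ = Ici c := by
    ext y
    constructor
    · rintro ⟨t, -, rfl⟩; exact le_max_right t c
    · intro hy; exact ⟨y, mem_univ _, max_eq_left hy⟩
  have hc : ConvexOn ℝ univ (fun t : ℝ => max t c) :=
    (convexOn_id convex_univ).sup (convexOn_const c convex_univ)
  exact ConvexOn.comp (g := φ) (by rw [himg]; exact h) hc (by rw [himg]; exact hm)

/-- the slope at the right of `x` dominates the slopes at the left -/
theorem left_le_right {p : ℝ → ℝ} {S : Set ℝ} {x y D : ℝ} (h : ConvexOn ℝ S p) (hy : y ∈ S)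
    (hS : ∀ᶠ t in 𝓝[>] x, t ∈ S) (hyx : y < x)
    (hD : HasDerivWithinAt p D (Ioi x) x) : p x + D * (y - x) ≤ p y := by
  have ht : Tendsto (slope p x) (𝓝[>] x) (𝓝 D) := by
    have := hasDerivWithinAt_iff_tendsto_slope.1 hD
    rwa [sdiff_singleton_eq_self (by simp)] at this
  have hev : ∀ᶠ t in 𝓝[>] x, (p x - p y) / (x - y) ≤ slope p x t := by
    filter_upwards [hS, self_mem_nhdsWithin] with t htS htx
    have htx' : x < t := htx
    rw [slope_def_field]
    exact h.slope_mono_adjacent hy htS hyx htx'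
  have hle : (p x - p y) / (x - y) ≤ D := ge_of_tendsto ht hev
  rw [div_le_iff₀ (by linarith)] at hle
  linarith

/-- the slope at the left -/
theorem leftDeriv_le {p : ℝ → ℝ} {x D M c : ℝ} (hc : c < x) (hD : HasDerivWithinAt p D (Iio x) x)
    (hM : ∀ u, c ≤ u → u < x → p x - p u ≤ M * (x - u)) : D ≤ M := by
  have ht : Tendsto (slope p x) (𝓝[<] x) (𝓝 D) := by
    have := hasDerivWithinAt_iff_tendsto_slope.1 hD
    rwa [sdiff_singleton_eq_self (by simp)] at this
  have hev : ∀ᶠ t in 𝓝[<] x, slope p x t ≤ M := by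
    have h1 : ∀ᶠ t in 𝓝[<] x, c < t := nhdsWithin_le_nhds (lt_mem_nhds hc)
    filter_upwards [h1, self_mem_nhdsWithin] with t htc htx
    have htx' : t < x := htx
    have := hM t htc.le htx'
    rw [slope_def_field, div_le_iff_of_neg (by linarith)]
    linarith
  exact le_of_tendsto ht hev

/-! ### building functions of the class `RC` -/

theorem RC_of {α β : ℝ → ℝ}
    (h1 : ∀ τ : ℝ, ConvexOn ℝ (Ici |τ|) (fun t => α t + β t * (t * τ)))
    (h2 : ∀ τ t : ℝ, |τ| ≤ t → α |τ| + β |τ| * (t * τ) ≤ α t + β t * (t * τ)) : RC α β := by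
  intro τ
  set r := |τ| with hr
  have hr0 : 0 ≤ r := abs_nonneg τ
  set φ1 : ℝ → ℝ := fun u => (α u + β u * (u * τ)) - (α r + β r * (u * τ)) with hφ1
  set φ2 : ℝ → ℝ := fun u => (α u + β u * (u * (-τ))) - (α r + β r * (u * (-τ))) with hφ2
  have c1 : ConvexOn ℝ (Ici r) φ1 := by
    refine (h1 τ).sub ?_
    refine ⟨convex_Ici _, fun x _ y _ a b ha hb hab => ?_⟩
    simp only [smul_eq_mul]
    have : a = 1 - b := by linarith
    subst this
    apply le_of_eq
    ring
  have c2 : ConvexOn ℝ (Ici r) φ2 := by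
    have := h1 (-τ)
    rw [abs_neg] at this
    refine this.sub ?_
    refine ⟨convex_Ici _, fun x _ y _ a b ha hb hab => ?_⟩
    simp only [smul_eq_mul]
    have : a = 1 - b := by linarith
    subst this
    apply le_of_eq
    ring
  have n1 : ∀ u, r ≤ u → 0 ≤ φ1 u := fun u hu => by
    have := h2 τ u hu
    simp only [hφ1]; linarith
  have n2 : ∀ u, r ≤ u → 0 ≤ φ2 u := fun u hu => by
    have := h2 (-τ) u (by rw [abs_neg]; exact hu)
    rw [abs_neg] at this
    simp only [hφ2]; linarith
  have e1 : φ1 r = 0 := by simp only [hφ1]; ring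
  have e2 : φ2 r = 0 := by simp only [hφ2]; ring
  have d1 := convex_ext c1 e1 n1
  have d2 := convex_ext c2 e2 n2
  have d2' : ConvexOn ℝ univ (fun t => φ2 (max (-t) r)) := by
    refine ⟨convex_univ, fun x _ y _ a b ha hb hab => ?_⟩
    have := d2.2 (mem_univ (-x)) (mem_univ (-y)) ha hb hab
    simp only [smul_eq_mul] at this ⊢
    have e : a * -x + b * -y = -(a * x + b * y) := by ring
    rwa [e] at this
  have d3 : ConvexOn ℝ univ (fun t : ℝ => α r + β r * (t * τ)) := by
    refine ⟨convex_univ, fun x _ y _ a b ha hb hab => ?_⟩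
    simp only [smul_eq_mul]
    have : a = 1 - b := by linarith
    subst this
    apply le_of_eq
    ring
  have key := (d3.add d1).add d2'
  refine key.congr ?_
  intro t _
  simp only [Pi.add_apply]
  rcases le_total r t with h | h
  · have ht : |t| = t := abs_of_nonneg (by linarith)
    rw [max_eq_left h, max_eq_right (by linarith : -t ≤ r), e2, ht, max_eq_left h]
    simp only [hφ1]; ring
  · rcases le_total (-r) t with h' | h'
    · have ht : |t| ≤ r := abs_le.2 ⟨h', h⟩
      rw [max_eq_right h, max_eq_right (by linarith : -t ≤ r), e1, e2, max_eq_right ht]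
      ring
    · have ht : |t| = -t := abs_of_nonpos (by linarith)
      rw [max_eq_right h, max_eq_left (by linarith : r ≤ -t), e1, ht,
        max_eq_left (by linarith : r ≤ -t)]
      simp only [hφ2]; ring

/-! ### consequences of convexity along the diagonal lines -/

section
variable {α β k : ℝ → ℝ}

theorem H3.reflect (h : H3 α β k) : H3 α (fun s => -β s) (fun v => k (-v)) := by
  intro τ
  have := h (-τ)
  rw [abs_neg] at this
  refine this.congr ?_
  intro t _
  have e1 : t * -τ / max |t| |τ| = -(t * τ / max |t| |τ|) := by ring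
  simp only [e1]
  ring

theorem RC_reflect (h : RC α β) : RC α (fun s => -β s) := by
  intro τ
  have := h (-τ)
  rw [abs_neg] at this
  refine this.congr ?_
  intro t _
  simp only
  ring

theorem H3.val_out (τ t : ℝ) (ht : |τ| ≤ t) :
    α (max |t| |τ|) + β (max |t| |τ|) * (t * τ) + k (t * τ / max |t| |τ|)
      = α t + β t * (t * τ) + k τ := by
  have h0 : 0 ≤ t := (abs_nonneg τ).trans ht
  rw [abs_of_nonneg h0, max_eq_left ht]
  rcases eq_or_lt_of_le h0 with rfl | h
  · have : τ = 0 := abs_nonpos_iff.1 ht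
    subst this
    simp
  · rw [mul_div_assoc, mul_div_cancel₀ _ h.ne']

theorem H3.val_in {r t : ℝ} (hr : 0 < r) (ht : |t| ≤ r) :
    α (max |t| |r|) + β (max |t| |r|) * (t * r) + k (t * r / max |t| |r|)
      = α r + β r * (r * t) + k t := by
  rw [abs_of_pos hr, max_eq_right ht, mul_div_assoc, div_self hr.ne', mul_one]
  ring

theorem H3.cs (h : H3 α β k) (τ : ℝ) : ConvexOn ℝ (Ici |τ|) (fun t => α t + β t * (t * τ)) := by
  have h1 := ((h τ).subset (subset_univ (Ici |τ|)) (convex_Ici _)).add
    (convexOn_const (-(k τ)) (convex_Ici |τ|))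
  refine h1.congr ?_
  intro t ht
  simp only [Pi.add_apply]
  rw [H3.val_out τ t ht]
  ring

theorem H3.ck (h : H3 α β k) : ConvexOn ℝ univ k := by
  refine ⟨convex_univ, fun x _ y _ a b ha hb hab => ?_⟩
  set r : ℝ := max |x| |y| + 1 with hr
  have hr0 : 0 < r := by positivity
  have hx : |x| ≤ r := by have := le_max_left |x| |y|; linarith
  have hy : |y| ≤ r := by have := le_max_right |x| |y|; linarith
  have hxy : |a * x + b * y| ≤ r := by
    have h1 := abs_add_le (a * x) (b * y)
    rw [abs_mul, abs_mul, abs_of_nonneg ha, abs_of_nonneg hb] at h1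
    have : a = 1 - b := by linarith
    subst this
    nlinarith
  have := (h r).2 (mem_univ x) (mem_univ y) ha hb hab
  simp only [smul_eq_mul] at this ⊢
  rw [H3.val_in hr0 hx, H3.val_in hr0 hy, H3.val_in hr0 hxy] at this
  have ha' : a = 1 - b := by linarith
  subst ha'
  linarith

/-- the junction inequality -/
theorem H3.jn (h : H3 α β k) {r u t : ℝ} (hr : 0 < r) (hu : -r ≤ u) (hur : u < r) (ht : r ≤ t) :
    (t - r) * ((r - u) * (β r * r) + (k r - k u))
      ≤ (r - u) * ((α t + β t * (t * r)) - (α r + β r * (r * r))) := by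
  have htu : 0 < t - u := by linarith
  have := (h r).2 (mem_univ u) (mem_univ t) (div_nonneg (by linarith : 0 ≤ t - r) htu.le)
    (div_nonneg (by linarith : 0 ≤ r - u) htu.le)
    (by rw [← add_div, div_eq_one_iff_eq htu.ne']; ring)
  have e : ((t - r) / (t - u)) • u + ((r - u) / (t - u)) • t = r := by
    simp only [smul_eq_mul]; field_simp; ring
  rw [e] at this
  simp only [smul_eq_mul] at this
  have hur' : |u| ≤ r := abs_le.2 ⟨hu, hur.le⟩
  have hrr : |r| ≤ t := by rw [abs_of_pos hr]; exact ht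
  rw [H3.val_in hr hur', H3.val_out r t hrr, H3.val_out r r (abs_of_pos hr).le] at this
  rw [div_mul_eq_mul_div, div_mul_eq_mul_div, ← add_div, le_div_iff₀ htu] at this
  linarith

end

end Pool.Agent.TH937.TF
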