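import Pool.Agent.TH937.TF.Supp3
import Pool.Agent.W360.MQ.Qkb
import Pool.Agent.W962.HM.Zer
import Pool.Agent.Helper188.Morrey.Basic

/-!
# Morrey's problem for the functions `W(A) = α(|A|) + β(|A|) det A + k(det A / |A|)`
-/

set_option autoImplicit false

namespace Pool.Agent.TH937.TF

open MeasureTheory Set Filter Topology
open Pool.Agent.W360.BQ (QCF)
open Pool.Agent.W360.MQ (QA RC wf cab RankOneConvex Quasiconvex)
open Pool.Agent.W488.IW (V Idx gd box tp ek)

/-- the function, in the variables `(u_z, u_zbar)` -/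
noncomputable def wk (α β k : ℝ → ℝ) (F : ℂ × ℂ) : ℝ :=
  α (‖F.1‖ + ‖F.2‖) + β (‖F.1‖ + ‖F.2‖) * (‖F.1‖ ^ 2 - ‖F.2‖ ^ 2) + k (‖F.1‖ - ‖F.2‖)

theorem cont_gd (N : ℕ) (c : Idx → ℂ) : Continuous (fun x : V => gd (box N) c x) := by
  unfold gd tp ek
  fun_prop

theorem qa_wk {α β k : ℝ → ℝ} (h : H3 α β k) (hcont : Continuous (wk α β k)) : QA (wk α β k) := by
  intro F0 N c
  set s0 : ℝ := ‖F0.1‖ + ‖F0.2‖ with hs0
  set v0 : ℝ := ‖F0.1‖ - ‖F0.2‖ with hv0
  have hv : |v0| ≤ s0 := by
    have h1 := norm_nonneg F0.1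
    have h2 := norm_nonneg F0.2
    rw [abs_le]
    constructor <;> linarith
  obtain ⟨α1, β1, hRC, hB, heq⟩ := supp h s0 v0 hv
  have hle : ∀ F : ℂ × ℂ, wf α1 β1 F ≤ wk α β k F := by
    intro F
    unfold wf wk
    have n1 := norm_nonneg F.1
    have n2 := norm_nonneg F.2
    have hb := hB (‖F.1‖ + ‖F.2‖) (‖F.1‖ - ‖F.2‖) (by rw [abs_le]; constructor <;> linarith)
    have e : (‖F.1‖ + ‖F.2‖) * (‖F.1‖ - ‖F.2‖) = ‖F.1‖ ^ 2 - ‖F.2‖ ^ 2 := by ring
    rw [e] at hb
    exact hb
  have heq0 : wf α1 β1 F0 = wk α β k F0 := by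
    unfold wf wk
    have e : s0 * v0 = ‖F0.1‖ ^ 2 - ‖F0.2‖ ^ 2 := by rw [hs0, hv0]; ring
    rw [e] at heq
    exact heq
  have hQ := Pool.Agent.W360.MQ.Fin.qa α1 β1 hRC F0 N c
  rw [heq0] at hQ
  refine hQ.trans ?_
  have hcw : Continuous (wf α1 β1) := Pool.Agent.W215.MQ.Cont.main α1 β1 hRC
  apply setIntegral_mono
  · exact ((hcw.comp (continuous_const.add (cont_gd N c))).continuousOn).integrableOn_compact
      isCompact_Icc
  · exact ((hcont.comp (continuous_const.add (cont_gd N c))).continuousOn).integrableOn_compact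
      isCompact_Icc
  · intro x
    exact hle _

/-! ### from matrices -/

/-- the inverse of `cab` -/
noncomputable def bac (F : ℂ × ℂ) : Matrix (Fin 2) (Fin 2) ℝ :=
  !![(F.1 + F.2).re, -(F.1 - F.2).im; (F.1 + F.2).im, (F.1 - F.2).re]

theorem cab_bac (F : ℂ × ℂ) : cab (bac F) = F := by
  unfold cab bac
  ext <;> simp <;> ring_nf <;> exact Complex.re_add_im _

theorem cont_bac : Continuous bac := by
  unfold bac
  refine continuous_matrix fun i j => ?_
  fin_cases i <;> fin_cases j <;> simp <;> fun_prop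

open Pool.Agent.W925.MQ.Roc in
theorem wk_dg (α β k : ℝ → ℝ) (t τ : ℝ) : wk α β k (cab (dg t τ)) =
    α (max |t| |τ|) + β (max |t| |τ|) * (t * τ) + k (t * τ / max |t| |τ|) := by
  have h1 : wk α β k (cab (dg t τ)) = wf α β (cab (dg t τ))
      + k (‖(cab (dg t τ)).1‖ - ‖(cab (dg t τ)).2‖) := rfl
  rw [h1, wf_dg, cab_dg]
  simp only [Complex.norm_real, Real.norm_eq_abs]
  congr 2
  rcases le_total |t| |τ| with h | h
  · rw [max_eq_right h]
    have h2 := abs_le.1 h
    rcases le_total 0 τ with h3 | h3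
    · rw [abs_of_nonneg h3] at h2 ⊢
      rw [abs_of_nonneg (by linarith), abs_of_nonpos (by linarith)]
      rcases eq_or_lt_of_le h3 with rfl | h4
      · have : t = 0 := by linarith [h2.1, h2.2]
        subst this; simp
      · field_simp; ring
    · rw [abs_of_nonpos h3] at h2 ⊢
      rw [abs_of_nonpos (by linarith), abs_of_nonneg (by linarith)]
      rcases eq_or_lt_of_le h3 with h4 | h4
      · have : t = 0 := by linarith [h2.1, h2.2]
        subst this; subst h4; simp
      · have : τ ≠ 0 := h4.ne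
        field_simp; ring
  · rw [max_eq_left h]
    have h2 := abs_le.1 h
    rcases le_total 0 t with h3 | h3
    · rw [abs_of_nonneg h3] at h2 ⊢
      rw [abs_of_nonneg (by linarith), abs_of_nonneg (by linarith)]
      rcases eq_or_lt_of_le h3 with rfl | h4
      · have : τ = 0 := by linarith [h2.1, h2.2]
        subst this; simp
      · field_simp; ring
    · rw [abs_of_nonpos h3] at h2 ⊢
      rw [abs_of_nonpos (by linarith), abs_of_nonpos (by linarith)]
      rcases eq_or_lt_of_le h3 with h4 | h4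
      · have : τ = 0 := by linarith [h2.1, h2.2]
        subst this; subst h4; simp
      · have : t ≠ 0 := h4.ne
        field_simp; ring

open Pool.Agent.W925.MQ.Roc in
theorem H3_of_roc {α β k : ℝ → ℝ} (hR : RankOneConvex (fun A => wk α β k (cab A))) :
    H3 α β k := by
  intro τ
  refine ⟨convex_univ, ?_⟩
  intro t1 _ t2 _ a b ha hb hab
  simp only [smul_eq_mul]
  by_cases h : t1 = t2
  · subst h
    have h1 : a * t1 + b * t1 = t1 := by rw [← add_mul, hab, one_mul]
    rw [h1, ← add_mul, hab, one_mul]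
  have hb1 : b ≤ 1 := by linarith
  have h1 := hR (dg t1 τ) (dg (t2 - t1) 0) (rank_dg _ (sub_ne_zero.2 (Ne.symm h))) b hb hb1
  have e1 : dg t1 τ + dg (t2 - t1) 0 = dg t2 τ := by
    ext i j
    fin_cases i <;> fin_cases j <;> simp [dg]
  have e2 : (1 - b) • dg t1 τ + b • dg t2 τ = dg (a * t1 + b * t2) τ := by
    have : a = 1 - b := by linarith
    subst this
    ext i j
    fin_cases i <;> fin_cases j <;> simp [dg]
    ring
  rw [e1, e2] at h1
  simp only [wk_dg] at h1
  have : a = 1 - b := by linarith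
  rw [this] at h1 ⊢
  exact h1

open scoped Matrix.Norms.L2Operator in
theorem main (α β k : ℝ → ℝ) (W : Matrix (Fin 2) (Fin 2) ℝ → ℝ)
    (hW : ∀ A, W A = α ‖A‖ + β ‖A‖ * A.det + k (A.det / ‖A‖)) (hR : RankOneConvex W) :
    Quasiconvex W := by
  have hWk : W = fun A => wk α β k (cab A) := by
    funext A
    obtain ⟨hn, hd⟩ := Pool.Agent.W74.MQ.OPN.main A
    rw [hW, hn, hd]
    unfold wk
    congr 2
    have e : ‖(cab A).1‖ ^ 2 - ‖(cab A).2‖ ^ 2
        = (‖(cab A).1‖ - ‖(cab A).2‖) * (‖(cab A).1‖ + ‖(cab A).2‖) := by ring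
    rw [e]
    by_cases h0 : ‖(cab A).1‖ + ‖(cab A).2‖ = 0
    · have h1 := norm_nonneg (cab A).1
      have h2 := norm_nonneg (cab A).2
      have h3 : ‖(cab A).1‖ = 0 := by linarith
      have h4 : ‖(cab A).2‖ = 0 := by linarith
      rw [h3, h4]; simp
    · rw [mul_div_assoc, div_self h0, mul_one]
  have hWc : Continuous W := Pool.Agent.Helper188.Morrey.RankOneConvex.continuous hR
  have hc : Continuous (wk α β k) := by
    have : wk α β k = W ∘ bac := by
      funext F
      simp only [Function.comp, hWk, cab_bac]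
    rw [this]
    exact hWc.comp cont_bac
  rw [hWk] at hR ⊢
  exact Pool.Agent.W360.MQ.All.om _ hc (qa_wk (H3_of_roc hR) hc)

end Pool.Agent.TH937.TF
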