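import Pool.Agent.TH937.TF.Core

/-!
# Supporting functions of the class `α(s) + β(s) s v + k(v)`: construction
-/

set_option autoImplicit false

namespace Pool.Agent.TH937.TF

open Set Filter Topology
open Pool.Agent.W360.MQ (RC)

/-- continuation of `a` below `c` by an affine function of slope `A` -/
noncomputable def Tg (a : ℝ → ℝ) (c A s : ℝ) : ℝ := if c ≤ s then a s else a c + A * (s - c)

theorem Tg_ge {a : ℝ → ℝ} {c A s : ℝ} (h : c ≤ s) : Tg a c A s = a s := if_pos h

theorem Tg_le {a : ℝ → ℝ} {c A s : ℝ} (h : s ≤ c) : Tg a c A s = a c + A * (s - c) := by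
  rcases eq_or_lt_of_le h with rfl | h'
  · rw [Tg_ge le_rfl]; ring
  · exact if_neg (not_le.2 h')

variable {α β k : ℝ → ℝ}

/-- the case `v0 = 0` -/
theorem supp_zero (h : H3 α β k) : ∃ α1 β1 : ℝ → ℝ, RC α1 β1 ∧
    (∀ s v : ℝ, |v| ≤ s → α1 s + β1 s * (s * v) ≤ α s + β s * (s * v) + k v) ∧
    ∀ s : ℝ, α1 s = α s + k 0 := by
  obtain ⟨κ, hκ⟩ : ∃ κ : ℝ, ∀ u, k 0 + κ * (u - 0) ≤ k u := by
    have hk := h.ck
    have h0 : (0 : ℝ) ∈ interior (univ : Set ℝ) := by simp
    have hd := hk.hasDerivWithinAt_rightDeriv_of_mem_interior h0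
    refine ⟨derivWithin k (Ioi 0) 0, fun u => ?_⟩
    rcases lt_trichotomy u 0 with hu | hu | hu
    · exact left_le_right hk (mem_univ u) (Eventually.of_forall fun _ => mem_univ _) hu hd
    · subst hu; simp
    · have := hk.le_slope_of_hasDerivWithinAt_Ioi (mem_univ 0) (mem_univ u) hu hd
      rw [slope_def_field, le_div_iff₀ (by linarith)] at this
      linarith
  have hcont : True := trivial
  refine ⟨fun s => α s + k 0, fun s => β s + κ / s, ?_, ?_, fun s => rfl⟩
  · have key : ∀ τ t : ℝ, |τ| ≤ t → (α t + k 0) + (β t + κ / t) * (t * τ)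
        = α t + β t * (t * τ) + (k 0 + κ * τ) := by
      intro τ t ht
      rcases eq_or_lt_of_le ((abs_nonneg τ).trans ht) with h0 | h0
      · subst h0
        have : τ = 0 := abs_nonpos_iff.1 ht
        subst this
        simp
      · field_simp
        ring
    refine RC_of (fun τ => ?_) (fun τ t ht => ?_)
    · have h1 := (h.cs τ).add (convexOn_const (k 0 + κ * τ) (convex_Ici |τ|))
      refine h1.congr ?_
      intro t ht
      simp only [Pi.add_apply]
      rw [key τ t ht]
    · rcases lt_trichotomy τ 0 with hτ | hτ | hτ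
      · -- `τ < 0`
        set r := |τ| with hr
        have hτr : τ = -r := by rw [hr, abs_of_neg hτ]; ring
        have hr0 : 0 < r := by rw [hr, abs_of_neg hτ]; linarith
        have hj := h.reflect.jn hr0 (by linarith : -r ≤ 0) hr0 ht
        have hk1 := hκ (-r)
        rw [key τ t ht]
        have e : (α r + k 0) + (β r + κ / r) * (t * τ) = α r + k 0 - β r * r * t - κ * t := by
          rw [hτr]; field_simp; ring
        rw [e, hτr]
        simp only [neg_zero] at hj
        have h2 : r * ((t - r) * (-(β r * r) - κ)) ≤ (t - r) * ((r - 0) * (-β r * r) + (k (-r) - k 0)) := by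
          have : r * (-κ) ≤ k (-r) - k 0 := by linarith
          nlinarith
        have h3 := h2.trans hj
        have h4 : r * ((t - r) * (-(β r * r) - κ)) ≤ r * ((α t + -β t * (t * r)) - (α r + -β r * (r * r))) := by
          linarith
        have h5 := le_of_mul_le_mul_left h4 hr0
        nlinarith
      · subst hτ
        simp only [mul_zero, add_zero, abs_zero] at ht ⊢
        rcases eq_or_lt_of_le ht with rfl | ht'
        · exact le_rfl
        · have h0 := h 0
          have := h0.2 (mem_univ (-t)) (mem_univ t) (by norm_num : (0:ℝ) ≤ 1/2) (by norm_num : (0:ℝ) ≤ 1/2) (by norm_num)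
          simp only [smul_eq_mul, abs_zero, mul_zero, zero_div, add_zero, abs_neg] at this
          have e : 1 / 2 * -t + 1 / 2 * t = 0 := by ring
          rw [e] at this
          simp only [abs_zero, max_self] at this
          rw [abs_of_pos ht', max_eq_left ht'.le] at this
          linarith
      · set r := |τ| with hr
        have hτr : τ = r := by rw [hr, abs_of_pos hτ]
        have hr0 : 0 < r := by rw [hr, abs_of_pos hτ]; exact hτ
        have hj := h.jn hr0 (by linarith : -r ≤ 0) hr0 ht
        have hk1 := hκ r
        rw [key τ t ht]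
        have e : (α r + k 0) + (β r + κ / r) * (t * τ) = α r + k 0 + β r * r * t + κ * t := by
          rw [hτr]; field_simp; ring
        rw [e, hτr]
        have h2 : r * ((t - r) * ((β r * r) + κ)) ≤ (t - r) * ((r - 0) * (β r * r) + (k r - k 0)) := by
          have : r * κ ≤ k r - k 0 := by linarith
          nlinarith
        have h3 := h2.trans hj
        have h4 : r * ((t - r) * ((β r * r) + κ)) ≤ r * ((α t + β t * (t * r)) - (α r + β r * (r * r))) := by
          linarith
        have h5 := le_of_mul_le_mul_left h4 hr0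
        nlinarith
  · intro s v hv
    have h1 := hκ v
    have e : (β s + κ / s) * (s * v) = β s * (s * v) + κ * v := by
      rcases eq_or_lt_of_le ((abs_nonneg v).trans hv) with h0 | h0
      · subst h0
        have : v = 0 := abs_nonpos_iff.1 hv
        subst this
        simp
      · field_simp
    rw [e]
    linarith

end Pool.Agent.TH937.TF
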