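import Pool.Agent.TH937.TF.Supp

/-!
# Supporting functions of the class `α(s) + β(s) s v + k(v)`: the case `v0 > 0`
-/

set_option autoImplicit false

namespace Pool.Agent.TH937.TF

open Set Filter Topology
open Pool.Agent.W360.MQ (RC)

variable {α β k : ℝ → ℝ}

/-- the slopes at `r0` -/
structure Dt (α β k : ℝ → ℝ) (v0 κ A B : ℝ) : Prop where
  h : H3 α β k
  h0 : 0 < v0
  sub : ∀ u, k v0 + κ * (u - v0) ≤ k u
  cp : ∀ t, v0 ≤ t → α v0 + β v0 * v0 * v0 + (A + v0 * B) * (t - v0) ≤ α t + β t * t * v0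
  cm : ∀ t, v0 ≤ t → α v0 - β v0 * v0 * v0 + (A - v0 * B) * (t - v0) ≤ α t - β t * t * v0
  jp : β v0 * v0 + κ ≤ A + v0 * B
  jm : -(β v0 * v0 + κ) ≤ A - v0 * B
  low : ∀ s v, |v| ≤ s → s < v0 →
    α v0 + β v0 * v0 * v + (A + v * B) * (s - v0) ≤ α s + β s * s * v
  jr : ∀ t, v0 ≤ t → α v0 + β v0 * v0 * v0 + (β v0 * v0 + κ) * (t - v0) ≤ α t + β t * t * v0

theorem exists_Dt (h : H3 α β k) {v0 : ℝ} (h0 : 0 < v0) : ∃ κ A B, Dt α β k v0 κ A B := by
  have hk := h.ck
  have hv : v0 ∈ interior (univ : Set ℝ) := by simp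
  set κ : ℝ := derivWithin k (Iio v0) v0 with hκ
  have hkd : HasDerivWithinAt k κ (Iio v0) v0 := hk.hasDerivWithinAt_leftDeriv_of_mem_interior hv
  have hsub : ∀ u, k v0 + κ * (u - v0) ≤ k u := by
    intro u
    rcases lt_trichotomy u v0 with hu | hu | hu
    · have := hk.slope_le_of_hasDerivWithinAt_Iio (mem_univ u) (mem_univ v0) hu hkd
      rw [slope_def_field, div_le_iff₀ (by linarith)] at this
      linarith
    · subst hu; simp
    · have h1 := hk.leftDeriv_le_rightDeriv_of_mem_interior hv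
      have hd := hk.hasDerivWithinAt_rightDeriv_of_mem_interior hv
      have := hk.le_slope_of_hasDerivWithinAt_Ioi (mem_univ v0) (mem_univ u) hu hd
      rw [slope_def_field, le_div_iff₀ (by linarith)] at this
      nlinarith
  -- the right derivatives
  have hout : ∀ τ t, |τ| ≤ t → α (max |t| |τ|) + β (max |t| |τ|) * (t * τ)
      + k (t * τ / max |t| |τ|) = α t + β t * (t * τ) + k τ := fun τ t ht => H3.val_out τ t ht
  have hder : ∀ τ, |τ| = v0 → ∃ D, HasDerivWithinAt (fun t => α t + β t * (t * τ)) D (Ioi v0) v0 := by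
    intro τ hτ
    have hd := (h τ).hasDerivWithinAt_rightDeriv_of_mem_interior hv
    refine ⟨_, (hd.sub_const (k τ)).congr ?_ ?_⟩
    · intro t ht
      have ht' : v0 < t := ht
      rw [hout τ t (by rw [hτ]; exact ht'.le)]; ring
    · rw [hout τ v0 hτ.le]; ring
  obtain ⟨Dp, hDp⟩ := hder v0 (abs_of_pos h0)
  obtain ⟨Dm, hDm⟩ := hder (-v0) (by rw [abs_neg, abs_of_pos h0])
  have hcp : ∀ t, v0 ≤ t → α v0 + β v0 * v0 * v0 + Dp * (t - v0) ≤ α t + β t * t * v0 := by
    intro t ht
    rcases eq_or_lt_of_le ht with rfl | ht'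
    · simp
    · have hc := h.cs v0
      rw [abs_of_pos h0] at hc
      have := hc.le_slope_of_hasDerivWithinAt_Ioi (mem_Ici.2 le_rfl) (mem_Ici.2 ht) ht' hDp
      rw [slope_def_field, le_div_iff₀ (by linarith)] at this
      linarith
  have hcm : ∀ t, v0 ≤ t → α v0 - β v0 * v0 * v0 + Dm * (t - v0) ≤ α t - β t * t * v0 := by
    intro t ht
    rcases eq_or_lt_of_le ht with rfl | ht'
    · simp
    · have hc := h.cs (-v0)
      rw [abs_neg, abs_of_pos h0] at hc
      have := hc.le_slope_of_hasDerivWithinAt_Ioi (mem_Ici.2 le_rfl) (mem_Ici.2 ht) ht' hDm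
      rw [slope_def_field, le_div_iff₀ (by linarith)] at this
      linarith
  have hjr : ∀ t, v0 ≤ t →
      α v0 + β v0 * v0 * v0 + (β v0 * v0 + κ) * (t - v0) ≤ α t + β t * t * v0 := by
    intro t ht
    rcases eq_or_lt_of_le ht with rfl | ht'
    · simp
    · set M : ℝ := (α t + β t * t * v0 - (α v0 + β v0 * v0 * v0)) / (t - v0) - β v0 * v0 with hM
      have hpos : 0 < t - v0 := by linarith
      have hκM : κ ≤ M := by
        refine leftDeriv_le (c := -v0) (by linarith) hkd ?_
        intro u hu huv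
        have := h.jn h0 hu huv ht
        have e : M * (t - v0) = α t + β t * t * v0 - (α v0 + β v0 * v0 * v0)
            - β v0 * v0 * (t - v0) := by rw [hM]; field_simp
        have h2 : (t - v0) * (k v0 - k u) ≤ (t - v0) * (M * (v0 - u)) := by
          have e2 : (t - v0) * (M * (v0 - u)) = (v0 - u) * (M * (t - v0)) := by ring
          rw [e2, e]
          linarith
        exact le_of_mul_le_mul_left h2 hpos
      have : κ * (t - v0) ≤ M * (t - v0) := mul_le_mul_of_nonneg_right hκM hpos.le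
      have e : M * (t - v0) = α t + β t * t * v0 - (α v0 + β v0 * v0 * v0)
            - β v0 * v0 * (t - v0) := by rw [hM]; field_simp
      linarith
  have hjl : ∀ t, v0 ≤ t →
      α v0 - β v0 * v0 * v0 + (-(β v0 * v0 + κ)) * (t - v0) ≤ α t - β t * t * v0 := by
    intro t ht
    have hj := h.reflect.jn h0 (by linarith : -v0 ≤ -v0) (by linarith : -v0 < v0) ht
    have hs := hsub (-v0)
    simp only [neg_neg] at hj
    have h2 : (2 * v0) * ((t - v0) * (-(β v0 * v0) - κ))
        ≤ (t - v0) * ((v0 - -v0) * (-β v0 * v0) + (k (-v0) - k v0)) := by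
      have h3 : (t - v0) * (κ * (-v0 - v0)) ≤ (t - v0) * (k (-v0) - k v0) :=
        mul_le_mul_of_nonneg_left (by linarith) (by linarith)
      nlinarith
    have h4 : (2 * v0) * ((t - v0) * (-(β v0 * v0) - κ))
        ≤ (2 * v0) * ((α t + -β t * (t * v0)) - (α v0 + -β v0 * (v0 * v0))) := by
      linarith
    have h5 := le_of_mul_le_mul_left h4 (by linarith)
    nlinarith
  -- derivative versions
  have hder_le : ∀ (p : ℝ → ℝ) (D c : ℝ), HasDerivWithinAt p D (Ioi v0) v0 →
      (∀ t, v0 ≤ t → p v0 + c * (t - v0) ≤ p t) → c ≤ D := by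
    intro p D c hD hc
    have ht : Tendsto (slope p v0) (𝓝[>] v0) (𝓝 D) := by
      have := hasDerivWithinAt_iff_tendsto_slope.1 hD
      rwa [sdiff_singleton_eq_self (by simp)] at this
    refine ge_of_tendsto ht ?_
    filter_upwards [self_mem_nhdsWithin] with t htx
    have htx' : v0 < t := htx
    rw [slope_def_field, le_div_iff₀ (by linarith)]
    have := hc t htx'.le
    linarith
  have hjp : β v0 * v0 + κ ≤ Dp := hder_le _ _ _ hDp (fun t ht => by
    have := hjr t ht; linarith)
  have hjm : -(β v0 * v0 + κ) ≤ Dm := hder_le _ _ _ hDm (fun t ht => by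
    have := hjl t ht; linarith)
  refine ⟨κ, (Dp + Dm) / 2, (Dp - Dm) / (2 * v0), h, h0, hsub, ?_, ?_, ?_, ?_, ?_, hjr⟩
  · intro t ht
    have e : (Dp + Dm) / 2 + v0 * ((Dp - Dm) / (2 * v0)) = Dp := by field_simp; ring
    rw [e]; exact hcp t ht
  · intro t ht
    have e : (Dp + Dm) / 2 - v0 * ((Dp - Dm) / (2 * v0)) = Dm := by field_simp; ring
    rw [e]; exact hcm t ht
  · have e : (Dp + Dm) / 2 + v0 * ((Dp - Dm) / (2 * v0)) = Dp := by field_simp; ring
    rw [e]; exact hjp
  · have e : (Dp + Dm) / 2 - v0 * ((Dp - Dm) / (2 * v0)) = Dm := by field_simp; ring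
    rw [e]; exact hjm
  · intro s v hvs hs
    have hd : HasDerivWithinAt (fun t => α t + β t * (t * v))
        ((Dp + Dm) / 2 + v * ((Dp - Dm) / (2 * v0))) (Ioi v0) v0 := by
      have h1 := (hDp.const_mul ((1 + v / v0) / 2)).add (hDm.const_mul ((1 - v / v0) / 2))
      have e : (1 + v / v0) / 2 * Dp + (1 - v / v0) / 2 * Dm
          = (Dp + Dm) / 2 + v * ((Dp - Dm) / (2 * v0)) := by field_simp; ring
      rw [e] at h1
      refine h1.congr_of_eventuallyEq ?_ ?_
      · refine Eventually.of_forall fun t => ?_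
        simp only [Pi.add_apply]
        field_simp
        ring
      · simp only [Pi.add_apply]
        field_simp
        ring
    have hS : ∀ᶠ t in 𝓝[>] v0, t ∈ Ici |v| := by
      filter_upwards [self_mem_nhdsWithin] with t ht
      have ht' : v0 < t := ht
      exact (hvs.trans hs.le).trans ht'.le
    have := left_le_right (h.cs v) (mem_Ici.2 hvs) hS hs hd
    linarith

end Pool.Agent.TH937.TF
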