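import Pool.Agent.TH937.TF.Supp2

/-!
# Supporting functions of the class `α(s) + β(s) s v + k(v)`: the case `v0 > 0`, conclusion
-/

set_option autoImplicit false

namespace Pool.Agent.TH937.TF

open Set Filter Topology
open Pool.Agent.W360.MQ (RC)

variable {α β k : ℝ → ℝ}

theorem Dt.tan {v0 κ A B : ℝ} (d : Dt α β k v0 κ A B) {τ t : ℝ} (hτ : |τ| ≤ v0) (ht : v0 ≤ t) :
    α v0 + β v0 * v0 * τ + (A + τ * B) * (t - v0) ≤ α t + β t * t * τ := by
  have h1 := d.cp t ht
  have h2 := d.cm t ht
  have h3 := abs_le.1 hτ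
  have h0 := d.h0
  have h4 := mul_le_mul_of_nonneg_left h1 (by linarith : 0 ≤ v0 + τ)
  have h5 := mul_le_mul_of_nonneg_left h2 (by linarith : 0 ≤ v0 - τ)
  have h6 : (2 * v0) * (α v0 + β v0 * v0 * τ + (A + τ * B) * (t - v0))
      ≤ (2 * v0) * (α t + β t * t * τ) := by linarith
  exact le_of_mul_le_mul_left h6 (by linarith)

theorem Dt.low' {v0 κ A B : ℝ} (d : Dt α β k v0 κ A B) {τ t : ℝ} (hτ : |τ| ≤ v0) :
    α v0 + β v0 * v0 * τ + (A + τ * B) * (t - v0)
      ≤ Tg α v0 A t + Tg (fun s => β s * s) v0 B t * τ := by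
  rcases le_total v0 t with h | h
  · rw [Tg_ge h, Tg_ge h]; exact d.tan hτ h
  · rw [Tg_le h, Tg_le h]; apply le_of_eq; ring

theorem Dt.cvx {v0 κ A B : ℝ} (d : Dt α β k v0 κ A B) (τ : ℝ) : ConvexOn ℝ (Ici |τ|)
    (fun t => Tg α v0 A t + Tg (fun s => β s * s) v0 B t * τ) := by
  rcases le_or_gt v0 |τ| with h | h
  · refine (d.h.cs τ).congr ?_
    intro t ht
    have ht' : |τ| ≤ t := ht
    try simp only
    rw [Tg_ge (h.trans ht'), Tg_ge (h.trans ht')]
    ring
  · set ℓ : ℝ → ℝ := fun t => α v0 + β v0 * v0 * τ + (A + τ * B) * (t - v0) with hℓ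
    set φ : ℝ → ℝ := fun u => (α u + β u * (u * τ)) - ℓ u with hφ
    have hℓc : ConvexOn ℝ univ ℓ := by
      refine ⟨convex_univ, fun x _ y _ a b ha hb hab => ?_⟩
      simp only [smul_eq_mul, hℓ]
      have : a = 1 - b := by linarith
      subst this
      apply le_of_eq
      ring
    have hℓc' : ConcaveOn ℝ (Ici v0) ℓ := by
      refine ⟨convex_Ici _, fun x _ y _ a b ha hb hab => ?_⟩
      simp only [smul_eq_mul, hℓ]
      have : a = 1 - b := by linarith
      subst this
      apply le_of_eq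
      ring
    have c1 : ConvexOn ℝ (Ici v0) φ := by
      have := (d.h.cs τ).subset (Ici_subset_Ici.2 h.le) (convex_Ici v0)
      exact this.sub hℓc'
    have n1 : ∀ u, v0 ≤ u → 0 ≤ φ u := fun u hu => by
      have := d.tan h.le hu
      simp only [hφ, hℓ]; linarith
    have e1 : φ v0 = 0 := by simp only [hφ, hℓ]; ring
    have key := (hℓc.add (convex_ext c1 e1 n1)).subset (subset_univ (Ici |τ|)) (convex_Ici _)
    refine key.congr ?_
    intro t _
    simp only [Pi.add_apply]
    rcases le_total v0 t with h' | h'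
    · rw [max_eq_left h', Tg_ge h', Tg_ge h']
      simp only [hφ]; ring
    · rw [max_eq_right h', e1, Tg_le h', Tg_le h']
      simp only [hℓ]; ring

/-- the junction inequalities for the supporting function -/
theorem Dt.jpos {v0 κ A B : ℝ} (d : Dt α β k v0 κ A B) {r t : ℝ} (hr : 0 < r) (ht : r ≤ t) :
    Tg α v0 A r + (Tg (fun s => β s * s) v0 B r + κ) * t
      ≤ Tg α v0 A t + (Tg (fun s => β s * s) v0 B t + κ) * r := by
  have h0 := d.h0
  rcases le_or_gt v0 r with h | h
  · rw [Tg_ge h, Tg_ge h, Tg_ge (h.trans ht), Tg_ge (h.trans ht)]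
    rcases eq_or_lt_of_le h with rfl | h'
    · have := d.jr t ht
      try simp only
      linarith
    · have hj := d.h.jn hr (by linarith : -r ≤ v0) h' ht
      have hs := d.sub r
      have h2 : (t - r) * (κ * (r - v0)) ≤ (t - r) * (k r - k v0) :=
        mul_le_mul_of_nonneg_left (by linarith) (by linarith)
      have h4 : (r - v0) * ((t - r) * (β r * r + κ))
          ≤ (r - v0) * ((α t + β t * (t * r)) - (α r + β r * (r * r))) := by
        linarith
      have h5 := le_of_mul_le_mul_left h4 (by linarith)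
      try simp only
      linarith
  · have hl := d.low' (τ := r) (t := t) (by rw [abs_of_pos hr]; exact h.le)
    rw [Tg_le h.le, Tg_le h.le]
    have h2 : 0 ≤ (t - r) * (A + v0 * B - (β v0 * v0 + κ)) :=
      mul_nonneg (by linarith) (by have := d.jp; linarith)
    try simp only at hl ⊢
    linarith

theorem Dt.jneg {v0 κ A B : ℝ} (d : Dt α β k v0 κ A B) {r t : ℝ} (hr : 0 < r) (ht : r ≤ t) :
    Tg α v0 A r - (Tg (fun s => β s * s) v0 B r + κ) * t
      ≤ Tg α v0 A t - (Tg (fun s => β s * s) v0 B t + κ) * r := by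
  have h0 := d.h0
  rcases le_or_gt v0 r with h | h
  · rw [Tg_ge h, Tg_ge h, Tg_ge (h.trans ht), Tg_ge (h.trans ht)]
    have hj := d.h.reflect.jn hr (by linarith : -r ≤ -v0) (by linarith : -v0 < r) ht
    have hs := d.sub (-r)
    simp only [neg_neg] at hj
    have h2 : (t - r) * (κ * (-r - v0)) ≤ (t - r) * (k (-r) - k v0) :=
      mul_le_mul_of_nonneg_left (by linarith) (by linarith)
    have h4 : (r + v0) * ((t - r) * (-(β r * r) - κ))
        ≤ (r + v0) * ((α t + -β t * (t * r)) - (α r + -β r * (r * r))) := by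
      linarith
    have h5 := le_of_mul_le_mul_left h4 (by linarith)
    try simp only
    linarith
  · have hl := d.low' (τ := -r) (t := t) (by rw [abs_neg, abs_of_pos hr]; exact h.le)
    rw [Tg_le h.le, Tg_le h.le]
    have h2 : 0 ≤ (t - r) * (A - v0 * B + (β v0 * v0 + κ)) :=
      mul_nonneg (by linarith) (by have := d.jm; linarith)
    try simp only at hl ⊢
    linarith

/-- the case `v0 > 0` -/
theorem supp_pos (h : H3 α β k) {v0 : ℝ} (h0 : 0 < v0) : ∃ α1 β1 : ℝ → ℝ, RC α1 β1 ∧
    (∀ s v : ℝ, |v| ≤ s → α1 s + β1 s * (s * v) ≤ α s + β s * (s * v) + k v) ∧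
    ∀ s : ℝ, v0 ≤ s → α1 s + β1 s * (s * v0) = α s + β s * (s * v0) + k v0 := by
  obtain ⟨κ, A, B, d⟩ := exists_Dt h h0
  set a := Tg α v0 A with ha
  set b := Tg (fun s => β s * s) v0 B with hb
  set c : ℝ := k v0 - κ * v0 with hc
  have key : ∀ τ t : ℝ, |τ| ≤ t → (a t + c) + ((b t + κ) / t) * (t * τ)
      = (a t + b t * τ) + (κ * τ + c) := by
    intro τ t ht
    rcases eq_or_lt_of_le ((abs_nonneg τ).trans ht) with h0 | h0
    · subst h0
      have : τ = 0 := abs_nonpos_iff.1 ht
      subst this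
      simp
    · field_simp
      ring
  refine ⟨fun s => a s + c, fun s => (b s + κ) / s, RC_of (fun τ => ?_) (fun τ t ht => ?_), ?_, ?_⟩
  · have h1 := (d.cvx τ).add (convexOn_const (κ * τ + c) (convex_Ici |τ|))
    refine h1.congr ?_
    intro t ht
    simp only [Pi.add_apply]
    rw [key τ t ht]
  · rw [key τ t ht]
    rcases lt_trichotomy τ 0 with hτ | hτ | hτ
    · set r := |τ| with hr
      have hτr : τ = -r := by rw [hr, abs_of_neg hτ]; ring
      have hr0 : 0 < r := by rw [hr, abs_of_neg hτ]; linarith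
      have := d.jneg hr0 ht
      have e : (b r + κ) / r * (t * τ) = -((b r + κ) * t) := by
        rw [hτr]; field_simp
      rw [e, hτr]
      linarith
    · subst hτ
      simp only [mul_zero, add_zero, abs_zero, zero_add] at ht ⊢
      have h1 := d.low' (τ := 0) (t := t) (by rw [abs_zero]; exact h0.le)
      have h2 : 0 ≤ A := by have := d.jp; have := d.jm; linarith
      have e : a 0 = α v0 + A * (0 - v0) := Tg_le h0.le
      simp only [mul_zero, zero_mul, add_zero] at h1
      have : 0 ≤ A * t := mul_nonneg h2 ht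
      linarith
    · set r := |τ| with hr
      have hτr : τ = r := by rw [hr, abs_of_pos hτ]
      have hr0 : 0 < r := by rw [hr, abs_of_pos hτ]; exact hτ
      have := d.jpos hr0 ht
      have e : (b r + κ) / r * (t * τ) = (b r + κ) * t := by
        rw [hτr]; field_simp
      rw [e, hτr]
      linarith
  · intro s v hv
    try simp only
    rw [key v s hv]
    have hs := d.sub v
    rcases le_or_gt v0 s with h' | h'
    · rw [ha, hb, Tg_ge h', Tg_ge h']
      try simp only
      linarith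
    · have := d.low s v hv h'
      rw [ha, hb, Tg_le h'.le, Tg_le h'.le]
      try simp only
      linarith
  · intro s hs
    try simp only
    rw [key v0 s (by rw [abs_of_pos h0]; exact hs), ha, hb, Tg_ge hs, Tg_ge hs]
    try simp only
    ring

/-- **supporting functions** -/
theorem supp (h : H3 α β k) (s0 v0 : ℝ) (h0 : |v0| ≤ s0) : ∃ α1 β1 : ℝ → ℝ, RC α1 β1 ∧
    (∀ s v : ℝ, |v| ≤ s → α1 s + β1 s * (s * v) ≤ α s + β s * (s * v) + k v) ∧
    α1 s0 + β1 s0 * (s0 * v0) = α s0 + β s0 * (s0 * v0) + k v0 := by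
  rcases lt_trichotomy v0 0 with hv | hv | hv
  · obtain ⟨α1, β1, h1, h2, h3⟩ := supp_pos h.reflect (v0 := -v0) (by linarith)
    refine ⟨α1, fun s => -β1 s, RC_reflect h1, fun s v hsv => ?_, ?_⟩
    · have := h2 s (-v) (by rw [abs_neg]; exact hsv)
      simp only [neg_neg] at this
      linarith
    · have := h3 s0 (by rw [abs_of_neg hv] at h0; exact h0)
      simp only [neg_neg] at this
      linarith
  · subst hv
    obtain ⟨α1, β1, h1, h2, h3⟩ := supp_zero h
    refine ⟨α1, β1, h1, h2, ?_⟩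
    rw [h3 s0]
    ring
  · obtain ⟨α1, β1, h1, h2, h3⟩ := supp_pos h hv
    exact ⟨α1, β1, h1, h2, h3 s0 (by rw [abs_of_pos hv] at h0; exact h0)⟩

end Pool.Agent.TH937.TF
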